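import Pool.Agent.V1193.GR.D
import Pool.Agent.H447R2.ML.Spec

set_option autoImplicit false

/-! Fibonacci and Lucas numbers (the first half is copied from the hand-in
`MP_5893d7_nt.FibonacciAndLucas` of a teammate). -/

namespace Pool.Agent.V1193.GR.Fib

open Filter Topology MeasureTheory
open Pool.Agent.V1193.BP (VV UU)
open Pool.Agent.V1193.GR

/-- The Lucas numbers. -/
def L : ℕ → ℕ
  | 0 => 2
  | 1 => 1
  | (n + 2) => L (n + 1) + L n

/-- The golden ratio. -/
noncomputable def φ : ℝ := (1 + Real.sqrt 5) / 2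

/-- The conjugate of the golden ratio. -/
noncomputable def ψ : ℝ := (1 - Real.sqrt 5) / 2

/-- The real solutions of the Fibonacci recurrence. -/
noncomputable def T (β B : ℝ) (n : ℕ) : ℝ := β * φ ^ n + B * ψ ^ n

/-- The product, with multiplicity, of the prime factors of `m` that are larger than `p`. -/
def roughPart (p m : ℕ) : ℕ := (m.primeFactorsList.filter (fun r => p < r)).prod

/-- The `p`-rough part of `⌊T β B p⌋`. -/
noncomputable def W (β B : ℝ) (p : ℕ) : ℕ := roughPart p ⌊T β B p⌋₊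

lemma sqrt5_sq : Real.sqrt 5 ^ 2 = 5 := Real.sq_sqrt (by norm_num)

lemma sqrt5_pos : 0 < Real.sqrt 5 := Real.sqrt_pos.2 (by norm_num)

lemma one_lt_phi : 1 < φ := by
  unfold φ
  nlinarith [sqrt5_sq, sqrt5_pos]

lemma phi_add : φ + ψ = ((1 : ℤ) : ℝ) := by unfold φ ψ; push_cast; ring

lemma phi_mul : φ * ψ = -1 := by unfold φ ψ; nlinarith [sqrt5_sq]

lemma phi_sq : φ ^ 2 = φ + 1 := by unfold φ; nlinarith [sqrt5_sq]

lemma psi_sq : ψ ^ 2 = ψ + 1 := by unfold ψ; nlinarith [sqrt5_sq]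

lemma T_rec (β B : ℝ) (n : ℕ) : T β B (n + 2) = T β B (n + 1) + T β B n := by
  unfold T
  rw [pow_add φ n 2, pow_add ψ n 2, phi_sq, psi_sq]
  ring

lemma T_zero (β B : ℝ) : T β B 0 = β + B := by unfold T; ring

lemma T_one (β B : ℝ) : T β B 1 = β * φ + B * ψ := by unfold T; ring

/-- the Fibonacci numbers -/
lemma T_fib (n : ℕ) : T (1 / Real.sqrt 5) (-(1 / Real.sqrt 5)) n = (Nat.fib n : ℝ) := by
  induction n using Nat.twoStepInduction with
  | zero => rw [T_zero]; simp
  | one =>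
    rw [T_one]
    have := sqrt5_pos.ne'
    unfold φ ψ
    rw [Nat.fib_one]
    field_simp
    push_cast
    ring
  | more n h1 h2 =>
    rw [T_rec, h1, h2, Nat.fib_add_two]
    push_cast
    ring

/-- the Lucas numbers -/
lemma T_luc (n : ℕ) : T 1 1 n = (L n : ℝ) := by
  induction n using Nat.twoStepInduction with
  | zero => rw [T_zero]; norm_num [L]
  | one =>
    rw [T_one, one_mul, one_mul, phi_add]
    norm_num [L]
  | more n h1 h2 =>
    rw [T_rec, h1, h2]
    show _ = ((L (n + 1) + L n : ℕ) : ℝ)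
    push_cast
    ring

lemma fib_eq (n : ℕ) : Pool.Agent.H447R2.ML.U 1 n = Nat.fib n := by
  induction n using Nat.twoStepInduction with
  | zero => rfl
  | one => rfl
  | more n h1 h2 =>
    rw [Pool.Agent.H447R2.ML.U_add_two, h1, h2, Nat.fib_add_two]
    ring

lemma luc_eq (n : ℕ) : Pool.Agent.H447R2.ML.V 1 n = L n := by
  induction n using Nat.twoStepInduction with
  | zero => rfl
  | one => rfl
  | more n h1 h2 =>
    show _ = L (n + 1) + L n
    rw [Pool.Agent.H447R2.ML.V_add_two, h1, h2]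
    ring

/-- The Fibonacci numbers. -/
lemma W_fib {p : ℕ} (hp : p.Prime) (h5 : 5 < p) :
    W (1 / Real.sqrt 5) (-(1 / Real.sqrt 5)) p = Nat.fib p := by
  have hd : ¬ p ∣ 1 ^ 2 + 4 := by
    intro h
    have := Nat.le_of_dvd (by norm_num) h
    omega
  have h := Pool.Agent.H447R2.ML.rough_U 1 one_pos hp (by omega) hd
    (x := T (1 / Real.sqrt 5) (-(1 / Real.sqrt 5)) p) (by rw [T_fib, fib_eq])
  rw [fib_eq] at h
  exact h

/-- The Lucas numbers. -/
lemma W_luc {p : ℕ} (hp : p.Prime) (h5 : 5 < p) : W 1 1 p = L p := by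
  have hd : ¬ p ∣ 1 := fun h => hp.one_lt.ne' (Nat.dvd_one.1 h)
  have h : Pool.Agent.H305R2.roughPart p ⌊T 1 1 p⌋₊ = L p := by
    rw [T_luc, Nat.floor_natCast]
    refine Pool.Agent.H447R2.ML.roughPart_eq_self ?_ fun q hq h => ?_
    · rw [← luc_eq]
      exact (Pool.Agent.H447R2.ML.V_pos 1 p one_pos).ne'
    · rw [← luc_eq] at h
      exact Pool.Agent.H447R2.ML.lt_of_dvd_V 1 hp (by omega) hd hq
        (fun h' => hq.one_lt.ne' (Nat.dvd_one.1 h')) h
  exact h


lemma special {n : ℕ} (hn : n.Prime) (h5 : 5 < n) :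
    VV φ 1 n = L n ∧ UU φ (1 / Real.sqrt 5) n = Nat.fib n := by
  have hodd : Odd n := hn.odd_of_ne_two (by omega)
  have hs1 : 1 < Real.sqrt 5 := by
    rw [Real.lt_sqrt] <;> norm_num
  have hs2 : Real.sqrt 5 < 3 := by
    rw [Real.sqrt_lt'] <;> norm_num
  have hψ : ψ < 0 := by unfold ψ; linarith
  have hψ1 : -1 < ψ := by unfold ψ; linarith
  have hneg : ψ ^ n < 0 := hodd.pow_neg hψ
  have hgt : -1 < ψ ^ n := by
    have h1 : ψ ^ n = -((-ψ) ^ n) := by rw [hodd.neg_pow]; ring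
    have h2 : (-ψ) ^ n < 1 := pow_lt_one₀ (by linarith) (by linarith) (by omega)
    rw [h1]; linarith
  have eF := T_fib n
  have eL := T_luc n
  unfold T at eF eL
  constructor
  · have hc : ⌈1 * φ ^ n⌉₊ = L n + 1 := by
      rw [Nat.ceil_eq_iff (by omega)]
      constructor
      · rw [Nat.add_sub_cancel]
        linarith
      · push_cast
        linarith
    unfold VV
    rw [hc, Nat.add_sub_cancel]
    have h := W_luc hn h5
    unfold W at h
    rw [T_luc, Nat.floor_natCast] at h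
    exact h
  · have hc : ⌈1 / Real.sqrt 5 * φ ^ n⌉₊ = Nat.fib n := by
      have hR : 0 < Nat.fib n := Nat.fib_pos.2 (by omega)
      have hd : 0 < 1 / Real.sqrt 5 := by positivity
      have hd1 : 1 / Real.sqrt 5 < 1 := by
        rw [div_lt_one (by positivity)]; linarith
      rw [Nat.ceil_eq_iff (by omega)]
      constructor
      · rw [Nat.cast_sub (by omega), ← eF]
        push_cast
        nlinarith
      · rw [← eF]
        nlinarith
    unfold UU
    rw [hc]
    have h := W_fib hn h5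
    unfold W at h
    rw [T_fib, Nat.floor_natCast] at h
    exact h

/-- the index of a Fibonacci prime -/
lemma index {n : ℕ} (h : (Nat.fib n).Prime) : n = 4 ∨ n.Prime := by
  by_contra hc
  rw [not_or] at hc
  obtain ⟨h4, hn⟩ := hc
  have hn2 : 2 ≤ n := by
    by_contra h0
    have h1 : n = 0 ∨ n = 1 := by omega
    rcases h1 with rfl | rfl <;> exact absurd h (by norm_num)
  obtain ⟨a, ha1, ha2, ha3⟩ := (Nat.not_prime_iff_exists_dvd_ne hn2).1 hn
  obtain ⟨b, hb⟩ := ha1
  have ha0 : a ≠ 0 := by rintro rfl; rw [zero_mul] at hb; omega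
  have hb1 : b ≠ 1 := by rintro rfl; rw [mul_one] at hb; exact ha3 hb.symm
  have hb0 : b ≠ 0 := by rintro rfl; rw [mul_zero] at hb; omega
  -- a divisor `c ≥ 3`, `c < n`
  have key : ∃ c, c ∣ n ∧ 3 ≤ c ∧ c < n := by
    rcases Nat.lt_or_ge a 3 with h1 | h1
    · refine ⟨b, ⟨a, by rw [hb, mul_comm]⟩, ?_, ?_⟩
      · have : a = 2 := by omega
        rw [this] at hb
        by_contra h3
        have : b = 2 := by omega
        rw [this] at hb
        omega
      · have : a = 2 := by omega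
        rw [this] at hb
        omega
    · exact ⟨a, ⟨b, hb⟩, h1, lt_of_le_of_ne (Nat.le_of_dvd (by omega) ⟨b, hb⟩) ha3⟩
  obtain ⟨c, hc1, hc2, hc3⟩ := key
  have hlt : Nat.fib c < Nat.fib n := (Nat.fib_lt_fib (by omega)).2 hc3
  have hgt : 1 < Nat.fib c := by
    have := Nat.fib_mono hc2
    have h3 : Nat.fib 3 = 2 := rfl
    omega
  rcases (Nat.dvd_prime h).1 (Nat.fib_dvd c n hc1) with h5 | h5 <;> omega

lemma q1 : {n : ℕ | (Nat.fib n).Prime}.Infinite ↔
    (NU {n | n.Prime} φ (1 / Real.sqrt 5)).Infinite := by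
  constructor
  · intro hi hf
    refine hi ((hf.union (Set.finite_Iio 6)).subset ?_)
    intro n hn
    rcases lt_or_ge n 6 with h3 | h3
    · exact Or.inr h3
    · rcases index hn with h4 | h4
      · omega
      · refine Or.inl ⟨h4, ?_⟩
        rw [(special h4 (by omega)).2]
        exact hn
  · intro hi hf
    refine hi ((hf.union (Set.finite_Iio 6)).subset ?_)
    rintro n ⟨hn, h1⟩
    rcases lt_or_ge n 6 with h3 | h3
    · exact Or.inr h3
    · rw [(special hn (by omega)).2] at h1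
      exact Or.inl h1

lemma ratio : Real.sqrt 5 = ((1 : ℕ) : ℝ) / ((1 : ℕ) : ℝ) * (φ - ψ) := by
  unfold φ ψ; push_cast; ring

lemma ratio' : (Real.sqrt 5)⁻¹ = ((1 : ℕ) : ℝ) / ((5 : ℕ) : ℝ) * (φ - ψ) := by
  have h := sqrt5_sq
  have h0 := sqrt5_pos
  have e : φ - ψ = Real.sqrt 5 := by unfold φ ψ; ring
  rw [e]
  push_cast
  field_simp
  linarith

lemma sqrt5_bounds : 1 ≤ Real.sqrt 5 ∧ Real.sqrt 5 ≤ φ ^ 2 := by
  have hs1 : 1 < Real.sqrt 5 := by
    rw [Real.lt_sqrt] <;> norm_num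
  have hs2 : Real.sqrt 5 < 3 := by
    rw [Real.sqrt_lt'] <;> norm_num
  refine ⟨hs1.le, ?_⟩
  rw [phi_sq]
  unfold φ
  linarith

theorem laws {S : Set ℕ} (hinf : S.Infinite) (hsum : Summable (Pool.Agent.V1193.LE.wt S)) {u v : ℝ}
    (huv : u < v) :
    Law S (fun y => NA S φ (Real.exp y)) u v
      (Real.exp Real.eulerMascheroniConstant * (v - u) / Real.log φ) ∧
    Law S (fun y => NU S φ (Real.exp y / Real.sqrt 5)) u v
      (Real.exp Real.eulerMascheroniConstant * (v - u) / Real.log φ) ∧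
    ((∀ n ∈ S, Odd n) → Law S (fun y => NA S φ (Real.exp y) ∪ NU S φ (Real.exp y / Real.sqrt 5)) u v
      (2 * (Real.exp Real.eulerMascheroniConstant * (v - u) / Real.log φ))) :=
  ⟨law_A one_lt_phi phi_add phi_mul huv hinf hsum,
    law_B one_lt_phi phi_add phi_mul sqrt5_pos huv hinf hsum,
    fun hodd => law_U one_lt_phi phi_add phi_mul le_rfl le_rfl ratio sqrt5_bounds.1 le_rfl
      (by norm_num) ratio' sqrt5_bounds.2 huv hodd hinf hsum⟩

theorem simultaneous {u v : ℝ} (huv : u < v) : ∃ K : ℝ, ∀ᶠ n : ℕ in Filter.atTop,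
    volume.real {y ∈ Set.Ioc u v | n ∈ NA Set.univ φ (Real.exp y) ∧
      n ∈ NU Set.univ φ (Real.exp y / Real.sqrt 5)} ≤ K * (Real.log n / n) ^ 2 := by
  obtain ⟨K, hK, N, h⟩ := pairs_BA one_lt_phi phi_add phi_mul le_rfl le_rfl ratio sqrt5_bounds.1
    huv Set.univ
  refine ⟨K, ?_⟩
  filter_upwards [Filter.eventually_ge_atTop N] with n hn
  have h1 := h n hn n le_rfl
  rw [wt_mem (Set.mem_univ n), real_win, mul_assoc, ← sq] at h1
  refine le_trans (le_of_eq ?_) h1
  congr 1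
  ext y
  refine and_congr_right fun _ => ?_
  have hφ : 0 < φ := by linarith [one_lt_phi]
  constructor
  · rintro ⟨h2, h3⟩
    exact ⟨(mem_B hφ sqrt5_pos _ y n).2 h3, (mem_A hφ _ y n).2 h2⟩
  · rintro ⟨h3, h2⟩
    exact ⟨(mem_A hφ _ y n).1 h2, (mem_B hφ sqrt5_pos _ y n).1 h3⟩

end Pool.Agent.V1193.GR.Fib
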