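import Pool.Agent.V1193.FM.E

set_option autoImplicit false

/-! Pairs of distant indices, general form. -/

namespace Pool.Agent.V1193.GR

open Finset Filter Topology MeasureTheory
open Pool.Agent.H305R2 (NN roughPart measurable_NN ff measurable_ff ff_nonneg ff_le_one
  integrableOn_ff mem_Ioc_log bounds)
open Pool.Agent.V1193.FM (g g_nonneg g_le_one measurable_g integrableOn_g compare g_bound log_step
  g_val cellg)

/-- the bound on one cell, for `ff` -/
lemma cellf {c : ℝ} (hc : 0 < c) : ∃ K : ℝ, 0 < K ∧ ∀ᶠ q : ℕ in atTop, ∀ C : ℝ, c * q ≤ C →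
    ∀ N : ℕ, 1 ≤ N → ∫ t in Set.Ioc (Real.log N) (Real.log ((N + 1 : ℕ) : ℝ)), ff q (t + C) ≤
      K * (Real.log q / q) * (Real.log ((N + 1 : ℕ) : ℝ) - Real.log N) := by
  obtain ⟨K1, hK1, hev⟩ := Pool.Agent.H447R2.ML.short_interval
  refine ⟨2 * K1 / c, by positivity, ?_⟩
  have hlog2 : ∀ᶠ q : ℕ in atTop, (Real.log q) ^ 2 ≤ c / 64 * q := by
    have h := (Real.isLittleO_pow_log_id_atTop (n := 2)).bound (show 0 < c / 64 by positivity)
    have h' := tendsto_natCast_atTop_atTop (R := ℝ) |>.eventually h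
    filter_upwards [h'] with q hq
    simp only [id, norm_pow, Real.norm_eq_abs, sq_abs, Nat.abs_cast] at hq
    exact hq
  have hlarge : ∀ᶠ q : ℕ in atTop, 2 / c < (q : ℝ) :=
    tendsto_natCast_atTop_atTop.eventually_gt_atTop _
  filter_upwards [hev, hlog2, hlarge, eventually_ge_atTop 3] with q hq hq2 hq4 hq3 C hC N hN
  have hq3' : (3 : ℝ) ≤ q := by exact_mod_cast hq3
  have hq0 : (0 : ℝ) < q := by linarith
  have hlog : 1 ≤ Real.log q := by
    rw [Real.le_log_iff_exp_le hq0]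
    have := Real.exp_one_lt_d9
    linarith
  have hN1 : (1 : ℝ) ≤ N := by exact_mod_cast hN
  have hN0 : (0 : ℝ) < N := by linarith
  obtain ⟨hs1, hs2⟩ := log_step hN
  set h := Real.log ((N + 1 : ℕ) : ℝ) - Real.log N with hh
  have hh0 : 0 < h := lt_of_lt_of_le (by positivity) hs1
  have hcq : 2 ≤ c * q := by
    rw [div_lt_iff₀ hc] at hq4
    linarith
  have hle : Real.log N ≤ Real.log ((N + 1 : ℕ) : ℝ) := by linarith
  have e1 : ∫ t in Set.Ioc (Real.log N) (Real.log ((N + 1 : ℕ) : ℝ)), ff q (t + C) =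
      ∫ t in Set.Ioc (Real.log N + C) (Real.log N + C + h), ff q t := by
    rw [← intervalIntegral.integral_of_le hle, ← intervalIntegral.integral_of_le (by linarith),
      intervalIntegral.integral_comp_add_right]
    congr 1
    rw [hh]; ring
  rw [e1]
  have hU : c / 2 * q ≤ Real.log N + C + Real.log h := by
    have h6 : Real.log (1 / (2 * (N : ℝ))) ≤ Real.log h := Real.log_le_log (by positivity) hs1
    rw [one_div, Real.log_inv, Real.log_mul (by norm_num) hN0.ne'] at h6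
    have := Real.log_two_lt_d9
    linarith
  have h32 : 32 * (Real.log q * Real.log (Real.log q)) ≤ Real.log N + C + Real.log h := by
    refine le_trans ?_ hU
    have h7 : Real.log (Real.log q) ≤ Real.log q := by
      have := Real.log_le_sub_one_of_pos (show 0 < Real.log q by linarith)
      linarith
    have h8 : Real.log q * Real.log (Real.log q) ≤ (Real.log q) ^ 2 := by
      rw [sq]; exact mul_le_mul_of_nonneg_left h7 (by linarith)
    linarith
  have h4 := hq (Real.log N + C) h hh0 hs2 h32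
  have h5 : Real.log q / (Real.log N + C + Real.log h) ≤ 2 / c * (Real.log q / q) := by
    have h8 : 2 / c * (Real.log q / q) = Real.log q / (c / 2 * q) := by
      field_simp
    rw [h8]
    exact div_le_div_of_nonneg_left (by linarith) (by positivity) hU
  have h15 : K1 * h * (Real.log q / (Real.log N + C + Real.log h)) ≤
      K1 * h * (2 / c * (Real.log q / q)) := mul_le_mul_of_nonneg_left h5 (by positivity)
  calc ∫ t in Set.Ioc (Real.log N + C) (Real.log N + C + h), ff q t ≤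
      K1 * h * (2 / c * (Real.log q / q)) := by linarith
    _ = _ := by ring

lemma ff_bound {c : ℝ} (hc : 0 < c) : ∃ K : ℝ, 0 < K ∧ ∀ᶠ p : ℕ in atTop,
    ∀ u v, c * p + 1 ≤ u → u ≤ v →
      ∫ t in Set.Ioc u v, ff p t ≤ K * ((v - u) + 1 / p) * (Real.log p / p) := by
  obtain ⟨K, hK, hev⟩ := bounds hc
  refine ⟨K, hK, ?_⟩
  filter_upwards [hev] with p hp u v hu huv
  exact hp.2.1 u v hu huv

/-- a family of functions of the integers next to `exp t` -/
structure Fam (a : ℕ → ℝ → ℝ) : Prop where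
  nonneg : ∀ p t, 0 ≤ a p t
  le_one : ∀ p t, a p t ≤ 1
  meas : ∀ p, Measurable (a p)
  val : ∀ p N : ℕ, 1 ≤ N → ∃ s : ℝ, 0 ≤ s ∧
    ∀ t ∈ Set.Ioc (Real.log N) (Real.log ((N + 1 : ℕ) : ℝ)), a p t = s
  bound : ∀ {c : ℝ}, 0 < c → ∃ K : ℝ, 0 < K ∧ ∀ᶠ p : ℕ in atTop,
    ∀ u v, c * p + 1 ≤ u → u ≤ v →
      ∫ t in Set.Ioc u v, a p t ≤ K * ((v - u) + 1 / p) * (Real.log p / p)
  cell : ∀ {c : ℝ}, 0 < c → ∃ K : ℝ, 0 < K ∧ ∀ᶠ q : ℕ in atTop, ∀ C : ℝ, c * q ≤ C →
    ∀ N : ℕ, 1 ≤ N → ∫ t in Set.Ioc (Real.log N) (Real.log ((N + 1 : ℕ) : ℝ)), a q (t + C) ≤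
      K * (Real.log q / q) * (Real.log ((N + 1 : ℕ) : ℝ) - Real.log N)

theorem fam_g : Fam g where
  nonneg := g_nonneg
  le_one := g_le_one
  meas := measurable_g
  val := fun p N hN => ⟨if (roughPart p (N + 1)).Prime then 1 else 0, by split_ifs <;> norm_num,
    fun _ ht => g_val hN ht p⟩
  bound := g_bound
  cell := cellg

theorem fam_ff : Fam ff where
  nonneg := ff_nonneg
  le_one := ff_le_one
  meas := measurable_ff
  val := fun p N hN => ⟨if (roughPart p N).Prime then 1 else 0, by split_ifs <;> norm_num,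
    fun t ht => by unfold ff; rw [(mem_Ioc_log hN).1 ht]⟩
  bound := ff_bound
  cell := cellf

lemma fam_int {a : ℕ → ℝ → ℝ} (ha : Fam a) (p : ℕ) (u v : ℝ) :
    IntegrableOn (a p) (Set.Ioc u v) := by
  refine Measure.integrableOn_of_bounded (M := 1) (by simp) (ha.meas p).aestronglyMeasurable ?_
  refine Eventually.of_forall fun t => ?_
  rw [Real.norm_of_nonneg (ha.nonneg p t)]
  exact ha.le_one p t

lemma fam_int2 {a b : ℕ → ℝ → ℝ} (ha : Fam a) (hb : Fam b) (p q : ℕ) (C u v : ℝ) :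
    IntegrableOn (fun t => a p t * b q (t + C)) (Set.Ioc u v) := by
  refine Measure.integrableOn_of_bounded (M := 1) (by simp)
    ((ha.meas p).mul ((hb.meas q).comp (measurable_id.add_const C))).aestronglyMeasurable ?_
  refine Eventually.of_forall fun t => ?_
  rw [Real.norm_of_nonneg (mul_nonneg (ha.nonneg p t) (hb.nonneg q _))]
  exact mul_le_one₀ (ha.le_one p t) (hb.nonneg q _) (hb.le_one q _)

/-- two indices in one window -/
theorem pair {a b : ℕ → ℝ → ℝ} (ha : Fam a) (hb : Fam b) {c : ℝ} (hc : 0 < c) :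
    ∃ K : ℝ, 0 < K ∧ ∀ᶠ p : ℕ in atTop, ∀ q : ℕ, p < q →
    ∀ C : ℝ, c * q ≤ C → ∀ u v : ℝ, c * p + 2 ≤ u → u ≤ v →
    ∫ t in Set.Ioc u v, a p t * b q (t + C) ≤
      K * ((v - u) + 3) * (Real.log p / p) * (Real.log q / q) := by
  obtain ⟨K1, hK1, hev1⟩ := hb.cell hc
  obtain ⟨K2, hK2, hev2⟩ := ha.bound hc
  obtain ⟨P1, hP1⟩ := eventually_atTop.1 hev1
  refine ⟨K1 * K2, by positivity, ?_⟩
  filter_upwards [hev2, eventually_ge_atTop (max P1 3)] with p hp hpm q hpq C hC u v hu huv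
  have hp3 : 3 ≤ p := le_trans (le_max_right _ _) hpm
  have hp3' : (3 : ℝ) ≤ p := by exact_mod_cast hp3
  have hp0 : (0 : ℝ) < p := by linarith
  have hq := hP1 q (by have := le_max_left P1 3; omega) C hC
  have hq3' : (3 : ℝ) ≤ q := by exact_mod_cast (by omega : 3 ≤ q)
  have hlp : 0 ≤ Real.log p / p := div_nonneg (Real.log_nonneg (by linarith)) hp0.le
  have hlq : 0 ≤ Real.log q / q := div_nonneg (Real.log_nonneg (by linarith)) (by linarith)
  have hcp : 0 < c * p := by positivity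
  set N0 := ⌊Real.exp u⌋₊ with hN0
  set N1 := ⌊Real.exp v⌋₊ with hN1
  have hN0p : 1 ≤ N0 := Nat.floor_pos.2 (Real.one_le_exp (by linarith))
  have hN01 : N0 ≤ N1 := Nat.floor_mono (Real.exp_le_exp.2 huv)
  have hN0r : (1 : ℝ) ≤ N0 := by exact_mod_cast hN0p
  have hN1r : (1 : ℝ) ≤ N1 := by exact_mod_cast hN0p.trans hN01
  have hl0 : Real.log N0 ≤ u := by
    rw [Real.log_le_iff_le_exp (by linarith)]
    exact Nat.floor_le (Real.exp_pos _).le
  have hl1 : v ≤ Real.log ((N1 + 1 : ℕ) : ℝ) := by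
    rw [Real.le_log_iff_exp_le (by positivity)]
    push_cast
    exact (Nat.lt_floor_add_one _).le
  have hexp1 : (2 : ℝ) ≤ Real.exp 1 := by have := Real.exp_one_gt_d9; linarith
  have hl0' : u - 1 ≤ Real.log N0 := by
    rw [Real.le_log_iff_exp_le (by linarith), Real.exp_sub, div_le_iff₀ (Real.exp_pos 1)]
    have := Nat.lt_floor_add_one (Real.exp u)
    rw [← hN0] at this
    nlinarith
  have hl1' : Real.log ((N1 + 1 : ℕ) : ℝ) ≤ v + 1 := by
    rw [Real.log_le_iff_le_exp (by positivity), Real.exp_add]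
    push_cast
    have : (N1 : ℝ) ≤ Real.exp v := Nat.floor_le (Real.exp_pos _).le
    nlinarith [Real.exp_pos v, Real.one_le_exp (show 0 ≤ v by linarith)]
  have hbig : ∫ t in Set.Ioc u v, a p t * b q (t + C) ≤
      ∫ t in Set.Ioc (Real.log N0) (Real.log ((N1 + 1 : ℕ) : ℝ)), a p t * b q (t + C) := by
    refine setIntegral_mono_set (fam_int2 ha hb p q C _ _) ?_ ?_
    · exact Eventually.of_forall fun x => mul_nonneg (ha.nonneg p _) (hb.nonneg q _)
    · exact (Set.Ioc_subset_Ioc hl0 hl1).eventuallyLE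
  have hmon : ∀ N : ℕ, N0 ≤ N → Real.log (N : ℝ) ≤ Real.log ((N + 1 : ℕ) : ℝ) := by
    intro N hN
    have : (N0 : ℝ) ≤ N := by exact_mod_cast hN
    exact Real.log_le_log (by linarith) (by push_cast; linarith)
  have hiiG : ∀ N ∈ Set.Ico N0 (N1 + 1), IntervalIntegrable (fun t => a p t * b q (t + C)) volume
      (Real.log (N : ℝ)) (Real.log ((N + 1 : ℕ) : ℝ)) := by
    intro N hN
    rw [intervalIntegrable_iff_integrableOn_Ioc_of_le (hmon N hN.1)]
    exact fam_int2 ha hb p q C _ _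
  have hiiF : ∀ N ∈ Set.Ico N0 (N1 + 1), IntervalIntegrable (fun t => a p t) volume
      (Real.log (N : ℝ)) (Real.log ((N + 1 : ℕ) : ℝ)) := by
    intro N hN
    rw [intervalIntegrable_iff_integrableOn_Ioc_of_le (hmon N hN.1)]
    exact fam_int ha p _ _
  have hsumG := intervalIntegral.sum_integral_adjacent_intervals_Ico
    (a := fun N : ℕ => Real.log (N : ℝ)) (m := N0) (n := N1 + 1) (by omega) hiiG
  have hsumF := intervalIntegral.sum_integral_adjacent_intervals_Ico
    (a := fun N : ℕ => Real.log (N : ℝ)) (m := N0) (n := N1 + 1) (by omega) hiiF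
  have h01 : Real.log (N0 : ℝ) ≤ Real.log ((N1 + 1 : ℕ) : ℝ) := by linarith
  rw [intervalIntegral.integral_of_le h01] at hsumG hsumF
  have hcell : ∀ N ∈ Finset.Ico N0 (N1 + 1),
      ∫ t in (Real.log (N : ℝ))..(Real.log ((N + 1 : ℕ) : ℝ)), a p t * b q (t + C) ≤
      K1 * (Real.log q / q) * ∫ t in (Real.log (N : ℝ))..(Real.log ((N + 1 : ℕ) : ℝ)), a p t := by
    intro N hN
    rw [Finset.mem_Ico] at hN
    have hNp : 1 ≤ N := hN0p.trans hN.1
    rw [intervalIntegral.integral_of_le (hmon N hN.1), intervalIntegral.integral_of_le (hmon N hN.1)]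
    obtain ⟨s, hs0, hs⟩ := ha.val p N hNp
    have e3 : ∫ t in Set.Ioc (Real.log (N : ℝ)) (Real.log ((N + 1 : ℕ) : ℝ)),
        a p t * b q (t + C) = s * ∫ t in Set.Ioc (Real.log (N : ℝ)) (Real.log ((N + 1 : ℕ) : ℝ)),
        b q (t + C) := by
      rw [← integral_const_mul]
      exact setIntegral_congr_fun measurableSet_Ioc fun t ht => by
        simp only [hs t ht]
    have e4 : ∫ t in Set.Ioc (Real.log (N : ℝ)) (Real.log ((N + 1 : ℕ) : ℝ)), a p t =
        s * (Real.log ((N + 1 : ℕ) : ℝ) - Real.log N) := by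
      have : ∫ t in Set.Ioc (Real.log (N : ℝ)) (Real.log ((N + 1 : ℕ) : ℝ)), a p t =
          ∫ t in Set.Ioc (Real.log (N : ℝ)) (Real.log ((N + 1 : ℕ) : ℝ)), s :=
        setIntegral_congr_fun measurableSet_Ioc fun t ht => hs t ht
      rw [this, setIntegral_const, smul_eq_mul, Real.volume_real_Ioc_of_le (hmon N hN.1)]
      ring
    rw [e3, e4]
    calc s * ∫ t in Set.Ioc (Real.log (N : ℝ)) (Real.log ((N + 1 : ℕ) : ℝ)), b q (t + C) ≤
        s * (K1 * (Real.log q / q) * (Real.log ((N + 1 : ℕ) : ℝ) - Real.log N)) :=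
          mul_le_mul_of_nonneg_left (hq N hNp) hs0
      _ = _ := by ring
  have hall : ∫ t in Set.Ioc (Real.log N0) (Real.log ((N1 + 1 : ℕ) : ℝ)), a p t * b q (t + C) ≤
      K1 * (Real.log q / q) * ∫ t in Set.Ioc (Real.log N0) (Real.log ((N1 + 1 : ℕ) : ℝ)), a p t := by
    rw [← hsumG, ← hsumF, Finset.mul_sum]
    exact Finset.sum_le_sum hcell
  have hone := hp (Real.log N0) (Real.log ((N1 + 1 : ℕ) : ℝ)) (by linarith) h01
  have h1p : 1 / (p : ℝ) ≤ 1 := by rw [div_le_one hp0]; linarith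
  have hone' : ∫ t in Set.Ioc (Real.log N0) (Real.log ((N1 + 1 : ℕ) : ℝ)), a p t ≤
      K2 * ((v - u) + 3) * (Real.log p / p) := by
    refine hone.trans (mul_le_mul_of_nonneg_right (mul_le_mul_of_nonneg_left ?_ hK2.le) hlp)
    linarith
  calc _ ≤ K1 * (Real.log q / q) * (K2 * ((v - u) + 3) * (Real.log p / p)) :=
        (hbig.trans hall).trans (mul_le_mul_of_nonneg_left hone' (mul_nonneg hK1.le hlq))
    _ = _ := by ring

end Pool.Agent.V1193.GR
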