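import Pool.Agent.V1193.GR.A
import Pool.Agent.V1193.LE.A
import Pool.Agent.V1193.BP.C
import Pool.Agent.V60.Gap.JFin

set_option autoImplicit false

/-! A fixed base that is a quadratic unit of norm `-1`: pairs of indices. -/

namespace Pool.Agent.V1193.GR

open Finset Filter Topology MeasureTheory
open Pool.Agent.H305R2 (NN ff measurable_ff ff_nonneg ff_le_one)
open Pool.Agent.V1193.FM (g g_nonneg g_le_one measurable_g g_eq ph)
open Pool.Agent.W66X (ysh)

/-- the two values of the perturbation -/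
lemma ysh_zero {α : ℝ} (hα : 0 < α) (p : ℕ) (t : ℝ) :
    ysh α (fun _ => 0) p t = p * Real.log α + t := by
  unfold ysh
  rw [add_zero, Real.log_mul (Real.exp_pos t).ne' (pow_pos hα p).ne', Real.log_exp, Real.log_pow]
  ring

lemma ysh_one {α : ℝ} (hα : 0 < α) (p : ℕ) (t : ℝ) :
    ysh α (fun _ => 1) p t = ph (p * Real.log α + t) := by
  unfold ysh ph
  rw [Real.exp_add, Real.exp_nat_mul, Real.exp_log hα]
  ring_nf

lemma ff_zero {α : ℝ} (hα : 0 < α) (p : ℕ) (t : ℝ) :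
    ff p (ysh α (fun _ => 0) p t) = ff p (p * Real.log α + t) := by rw [ysh_zero hα]

lemma ff_one {α : ℝ} (hα : 0 < α) (p : ℕ) (t : ℝ) :
    ff p (ysh α (fun _ => 1) p t) = g p (p * Real.log α + t) := by rw [ysh_one hα, g_eq]

/-- from unit windows to all windows -/
lemma windows {F : ℕ → ℕ → ℝ → ℝ} (hF0 : ∀ p q t, 0 ≤ F p q t)
    (hFi : ∀ p q (u v : ℝ), IntegrableOn (F p q) (Set.Ioc u v)) {D : ℕ → ℕ → Prop} {M : ℕ → ℕ → ℝ}
    (hM : ∀ p q, 0 ≤ M p q)
    (h : ∀ b0 : ℝ, ∃ K : ℝ, 0 < K ∧ ∃ P : ℕ, ∀ p ≥ P, ∀ q : ℕ, D p q →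
      ∫ t in Set.Ioc b0 (b0 + 1), F p q t ≤ K * M p q) (u v : ℝ) :
    ∃ K : ℝ, 0 < K ∧ ∃ P : ℕ, ∀ p ≥ P, ∀ q : ℕ, D p q →
      ∫ t in Set.Ioc u v, F p q t ≤ K * M p q := by
  obtain ⟨n, hn⟩ := exists_nat_ge (v - u)
  have key : ∀ n : ℕ, ∃ K : ℝ, 0 < K ∧ ∃ P : ℕ, ∀ p ≥ P, ∀ q : ℕ, D p q →
      ∫ t in Set.Ioc u (u + n), F p q t ≤ K * M p q := by
    intro n
    induction n with
    | zero =>
      refine ⟨1, one_pos, 0, fun p _ q _ => ?_⟩
      simp only [Nat.cast_zero, add_zero, Set.Ioc_self, setIntegral_empty, one_mul]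
      exact hM p q
    | succ n ih =>
      obtain ⟨K1, hK1, P1, h1⟩ := ih
      obtain ⟨K2, hK2, P2, h2⟩ := h (u + n)
      refine ⟨K1 + K2, by positivity, max P1 P2, fun p hp q hD => ?_⟩
      have e : Set.Ioc u (u + ((n + 1 : ℕ) : ℝ)) = Set.Ioc u (u + n) ∪ Set.Ioc (u + n) (u + n + 1) := by
        rw [Set.Ioc_union_Ioc_eq_Ioc (by linarith [Nat.cast_nonneg (α := ℝ) n]) (by linarith)]
        congr 1
        push_cast; ring
      rw [e, setIntegral_union (Set.Ioc_disjoint_Ioc_of_le le_rfl) measurableSet_Ioc (hFi _ _ _ _)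
        (hFi _ _ _ _), add_mul]
      exact add_le_add (h1 p ((le_max_left _ _).trans hp) q hD)
        (h2 p ((le_max_right _ _).trans hp) q hD)
  obtain ⟨K, hK, P, hP⟩ := key n
  refine ⟨K, hK, P, fun p hp q hD => le_trans ?_ (hP p hp q hD)⟩
  exact setIntegral_mono_set (hFi _ _ _ _) (Eventually.of_forall fun t => hF0 p q t)
    (Set.Ioc_subset_Ioc le_rfl (by linarith)).eventuallyLE

lemma w_half {p q : ℕ} (hp : 3 ≤ p) (hpq : p ≤ q) (h2 : q ≤ 2 * p) :
    Real.log p / p ≤ 2 * (Real.log q / q) := by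
  have hp3 : (3 : ℝ) ≤ p := by exact_mod_cast hp
  have h1 : (p : ℝ) ≤ q := by exact_mod_cast hpq
  have h3 : (q : ℝ) ≤ 2 * p := by exact_mod_cast h2
  have h4 : Real.log p ≤ Real.log q := Real.log_le_log (by linarith) h1
  have h5 : 0 ≤ Real.log p := Real.log_nonneg (by linarith)
  rw [mul_div_assoc', div_le_div_iff₀ (by linarith) (by linarith)]
  nlinarith

/-- near and far pairs together -/
lemma combine {F : ℕ → ℕ → ℝ → ℝ} {u v : ℝ} {D : ℕ → ℕ → Prop}
    (hnear : ∃ K : ℝ, 0 < K ∧ ∃ P : ℕ, ∀ p ≥ P, ∀ q : ℕ, D p q ∧ p ≤ q ∧ q ≤ 2 * p →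
      ∫ t in Set.Ioc u v, F p q t ≤ K * (Real.log p / p) ^ 2)
    (hfar : ∃ K : ℝ, 0 < K ∧ ∃ P : ℕ, ∀ p ≥ P, ∀ q : ℕ, 2 * p < q →
      ∫ t in Set.Ioc u v, F p q t ≤ K * ((Real.log p / p) * (Real.log q / q))) :
    ∃ K : ℝ, 0 < K ∧ ∃ P : ℕ, ∀ p ≥ P, ∀ q : ℕ, D p q → p ≤ q →
      ∫ t in Set.Ioc u v, F p q t ≤ K * ((Real.log p / p) * (Real.log q / q)) := by
  obtain ⟨K1, hK1, P1, h1⟩ := hnear
  obtain ⟨K2, hK2, P2, h2⟩ := hfar
  refine ⟨2 * K1 + K2, by positivity, max (max P1 P2) 3, fun p hp q hD hpq => ?_⟩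
  have hp1 : P1 ≤ p := ((le_max_left _ _).trans (le_max_left _ _)).trans hp
  have hp2 : P2 ≤ p := ((le_max_right _ _).trans (le_max_left _ _)).trans hp
  have hp3 : 3 ≤ p := (le_max_right _ _).trans hp
  have hwp : 0 ≤ Real.log p / p := div_nonneg (Real.log_natCast_nonneg p) (Nat.cast_nonneg p)
  have hwq : 0 ≤ Real.log q / q := div_nonneg (Real.log_natCast_nonneg q) (Nat.cast_nonneg q)
  rcases le_or_gt q (2 * p) with h3 | h3
  · refine (h1 p hp1 q ⟨hD, hpq, h3⟩).trans ?_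
    have h4 := w_half hp3 hpq h3
    have h5 : 0 ≤ (Real.log p / p) * (Real.log q / q) := mul_nonneg hwp hwq
    calc K1 * (Real.log p / p) ^ 2 = K1 * ((Real.log p / p) * (Real.log p / p)) := by ring
      _ ≤ K1 * ((Real.log p / p) * (2 * (Real.log q / q))) := by gcongr
      _ ≤ _ := by nlinarith
  · refine (h2 p hp2 q h3).trans ?_
    have h5 : 0 ≤ (Real.log p / p) * (Real.log q / q) := mul_nonneg hwp hwq
    nlinarith

/-- far pairs of two families for one base -/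
lemma far_pair {a b : ℕ → ℝ → ℝ} (ha : Fam a) (hb : Fam b) {x : ℝ} (hx : 0 < x) (r s : ℝ)
    {u v : ℝ} (huv : u < v) :
    ∃ K : ℝ, 0 < K ∧ ∃ P : ℕ, ∀ p ≥ P, ∀ q : ℕ, 2 * p < q →
      ∫ t in Set.Ioc u v, a p (p * x + (t + r)) * b q (q * x + (t + s)) ≤
        K * ((Real.log p / p) * (Real.log q / q)) := by
  obtain ⟨K1, hK1, h1⟩ := pair ha hb (c := x / 4) (by positivity)
  have hs : ∀ᶠ p : ℕ in atTop, (2 + |u + r| + |s - r|) / (x / 4) < p :=
    tendsto_natCast_atTop_atTop.eventually_gt_atTop _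
  obtain ⟨P, hP⟩ := eventually_atTop.1 (h1.and hs)
  refine ⟨K1 * ((v - u) + 3), mul_pos hK1 (by linarith), max P 3, fun p hp q hpq => ?_⟩
  obtain ⟨h2, h3⟩ := hP p ((le_max_left _ _).trans hp)
  have hp3 : (3 : ℝ) ≤ p := by exact_mod_cast (le_max_right _ _).trans hp
  rw [div_lt_iff₀ (by positivity)] at h3
  have hq : 2 * (p : ℝ) ≤ q := by exact_mod_cast hpq.le
  have hxp : 0 < (p : ℝ) * x := by positivity
  have c1 := neg_abs_le (u + r)
  have c2 := neg_abs_le (s - r)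
  have c3 := abs_nonneg (u + r)
  have c4 := abs_nonneg (s - r)
  have hqx : 2 * ((p : ℝ) * x) ≤ q * x := by nlinarith
  have e : ∫ t in Set.Ioc u v, a p (p * x + (t + r)) * b q (q * x + (t + s)) =
      ∫ t in Set.Ioc (p * x + r + u) (p * x + r + v),
        a p t * b q (t + ((q : ℝ) * x - p * x + (s - r))) := by
    rw [← Pool.Agent.V1193.BP.shift_int
      (fun t => a p t * b q (t + ((q : ℝ) * x - p * x + (s - r)))) huv.le]
    refine integral_congr_ae (Eventually.of_forall fun t => ?_)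
    simp only
    congr 2 <;> ring
  rw [e]
  have h5 := h2 q (by omega) ((q : ℝ) * x - p * x + (s - r)) (by nlinarith) (p * x + r + u)
    (p * x + r + v) (by linarith) (by linarith)
  refine h5.trans (le_of_eq ?_)
  ring

section unit

variable {α α' : ℝ} {P : ℤ}

/-- pairs for `ff` -/
theorem pair_ff (hα : 1 < α) (hs : α + α' = P) (hm : α * α' = -1) {u v : ℝ} (huv : u < v) :
    ∃ K : ℝ, 0 < K ∧ ∃ N : ℕ, ∀ p ≥ N, ∀ q : ℕ, p < q →
      ∫ t in Set.Ioc u v, ff p (p * Real.log α + t) * ff q (q * Real.log α + t) ≤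
        K * ((Real.log p / p) * (Real.log q / q)) := by
  have hα0 : 0 < α := by linarith
  have h1 := windows (F := fun p q t => ff p (ysh α (fun _ => 0) p t) * ff q (ysh α (fun _ => 0) q t))
    (fun p q t => mul_nonneg (ff_nonneg _ _) (ff_nonneg _ _)) (fun p q u v => by
      refine Measure.integrableOn_of_bounded (M := 1) (by simp)
        (((measurable_ff p).comp (Pool.Agent.W66X.measurable_ysh _ _ _)).mul
          ((measurable_ff q).comp (Pool.Agent.W66X.measurable_ysh _ _ _))).aestronglyMeasurable ?_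
      refine Eventually.of_forall fun t => ?_
      rw [Real.norm_of_nonneg (mul_nonneg (ff_nonneg _ _) (ff_nonneg _ _))]
      exact mul_le_one₀ (ff_le_one _ _) (ff_nonneg _ _) (ff_le_one _ _))
    (D := fun p q => p < q ∧ q ≤ 2 * p) (M := fun p _ => (Real.log p / p) ^ 2)
    (fun p q => sq_nonneg _) (fun b0 => by
      obtain ⟨K, hK, N, h⟩ := Pool.Agent.V60.Gap.near_irr2 (κ := 1) (C := 1) (A := 1) hα zero_le_one hα
        (g := fun _ => 0) (fun p => by simp) le_rfl hα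
        (fun h a b hh ha hb => Pool.Agent.H19P.dio_unit hα hs hm h a b hh ha hb) b0
      exact ⟨K, hK, N, fun p hp q hD => h p hp q hD.1 hD.2⟩) u v
  have h2 := far_pair fam_ff fam_ff (Real.log_pos hα) 0 0 huv
  simp only [add_zero] at h2
  simp only [ff_zero hα0] at h1
  obtain ⟨K, hK, N, h⟩ := combine (D := fun p q => p < q)
    (F := fun p q t => ff p (p * Real.log α + t) * ff q (q * Real.log α + t))
    (by
      obtain ⟨K, hK, N, h⟩ := h1
      exact ⟨K, hK, N, fun p hp q hD => h p hp q ⟨hD.1, hD.2.2⟩⟩) h2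
  exact ⟨K, hK, N, fun p hp q hq => h p hp q hq hq.le⟩

/-- pairs for `g` -/
theorem pair_g (hα : 1 < α) (hs : α + α' = P) (hm : α * α' = -1) {u v : ℝ} (huv : u < v) :
    ∃ K : ℝ, 0 < K ∧ ∃ N : ℕ, ∀ p ≥ N, ∀ q : ℕ, p < q →
      ∫ t in Set.Ioc u v, g p (p * Real.log α + t) * g q (q * Real.log α + t) ≤
        K * ((Real.log p / p) * (Real.log q / q)) := by
  have hα0 : 0 < α := by linarith
  have h1 := windows (F := fun p q t => ff p (ysh α (fun _ => 1) p t) * ff q (ysh α (fun _ => 1) q t))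
    (fun p q t => mul_nonneg (ff_nonneg _ _) (ff_nonneg _ _)) (fun p q u v => by
      refine Measure.integrableOn_of_bounded (M := 1) (by simp)
        (((measurable_ff p).comp (Pool.Agent.W66X.measurable_ysh _ _ _)).mul
          ((measurable_ff q).comp (Pool.Agent.W66X.measurable_ysh _ _ _))).aestronglyMeasurable ?_
      refine Eventually.of_forall fun t => ?_
      rw [Real.norm_of_nonneg (mul_nonneg (ff_nonneg _ _) (ff_nonneg _ _))]
      exact mul_le_one₀ (ff_le_one _ _) (ff_nonneg _ _) (ff_le_one _ _))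
    (D := fun p q => p < q ∧ q ≤ 2 * p) (M := fun p _ => (Real.log p / p) ^ 2)
    (fun p q => sq_nonneg _) (fun b0 => by
      obtain ⟨K, hK, N, h⟩ := Pool.Agent.V60.Gap.near_irr2 (κ := 1) (C := 1) (A := 1) hα zero_le_one hα
        (g := fun _ => 1) (fun p => by simp) le_rfl hα
        (fun h a b hh ha hb => Pool.Agent.H19P.dio_unit hα hs hm h a b hh ha hb) b0
      exact ⟨K, hK, N, fun p hp q hD => h p hp q hD.1 hD.2⟩) u v
  have h2 := far_pair fam_g fam_g (Real.log_pos hα) 0 0 huv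
  simp only [add_zero] at h2
  simp only [ff_one hα0] at h1
  obtain ⟨K, hK, N, h⟩ := combine (D := fun p q => p < q)
    (F := fun p q t => g p (p * Real.log α + t) * g q (q * Real.log α + t))
    (by
      obtain ⟨K, hK, N, h⟩ := h1
      exact ⟨K, hK, N, fun p hp q hD => h p hp q ⟨hD.1, hD.2.2⟩⟩) h2
  exact ⟨K, hK, N, fun p hp q hq => h p hp q hq hq.le⟩

/-- pairs: `g` first, at the smaller amplitude -/
theorem pair_gf (hα : 1 < α) (hs : α + α' = P) (hm : α * α' = -1) {m n : ℕ} (hm1 : 1 ≤ m)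
    (hn1 : 1 ≤ n) {ρ : ℝ} (hρ : ρ = m / n * (α - α')) (hρ1 : 1 ≤ ρ) {u v : ℝ} (huv : u < v) :
    ∃ K : ℝ, 0 < K ∧ ∃ N : ℕ, ∀ p ≥ N, ∀ q : ℕ, p ≤ q →
      ∫ t in Set.Ioc u v, g p (p * Real.log α + t) * ff q (q * Real.log α + (t + Real.log ρ)) ≤
        K * ((Real.log p / p) * (Real.log q / q)) := by
  have hα0 : 0 < α := by linarith
  have hδ0 : 0 < α - α' := by
    have := (abs_lt.1 (Pool.Agent.H19P.conj_abs hα hm)).2
    linarith
  have hK0 : (1 : ℝ) ≤ n * (n + m * (α - α')) := by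
    have h1 : (1 : ℝ) ≤ n := by exact_mod_cast hn1
    have h2 : 0 ≤ (m : ℝ) * (α - α') := by positivity
    nlinarith
  have h1 := windows
    (F := fun p q t => ff p (ysh α (fun _ => 1) p t) * ff q (ysh α (fun _ => 0) q (t + Real.log ρ)))
    (fun p q t => mul_nonneg (ff_nonneg _ _) (ff_nonneg _ _)) (fun p q u v => by
      refine Measure.integrableOn_of_bounded (M := 1) (by simp)
        (((measurable_ff p).comp (Pool.Agent.W66X.measurable_ysh _ _ _)).mul
          ((measurable_ff q).comp ((Pool.Agent.W66X.measurable_ysh _ _ _).comp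
            (measurable_id.add_const _)))).aestronglyMeasurable ?_
      refine Eventually.of_forall fun t => ?_
      rw [Real.norm_of_nonneg (mul_nonneg (ff_nonneg _ _) (ff_nonneg _ _))]
      exact mul_le_one₀ (ff_le_one _ _) (ff_nonneg _ _) (ff_le_one _ _))
    (D := fun p q => p ≤ q ∧ q ≤ 2 * p) (M := fun p _ => (Real.log p / p) ^ 2)
    (fun p q => sq_nonneg _) (fun b0 => by
      obtain ⟨K, hK, N, h⟩ := Pool.Agent.V60.Gap.jnear (κ := 1) (C := 1) (ρ := ρ) hα zero_le_one hα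
        (g := fun _ => 1) (g2 := fun _ => 0) (fun p => by simp) (fun p => by simp) hK0
        (by linarith) (fun h a b ha hb => by
          rw [hρ]; exact Pool.Agent.V60.Gap.dio_ratio hα hs hm hm1 hn1 h a b ha hb) b0
      refine ⟨K, hK, N, fun p hp q hD => h p hp q hD.1 hD.2 ?_⟩
      have : 1 ≤ α ^ (q - p) := one_le_pow₀ hα.le
      nlinarith) u v
  have h2 := far_pair fam_g fam_ff (Real.log_pos hα) 0 (Real.log ρ) huv
  simp only [add_zero] at h2
  simp only [ff_one hα0, ff_zero hα0] at h1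
  obtain ⟨K, hK, N, h⟩ := combine (D := fun _ _ => True)
    (F := fun p q t => g p (p * Real.log α + t) * ff q (q * Real.log α + (t + Real.log ρ)))
    (by
      obtain ⟨K, hK, N, h⟩ := h1
      exact ⟨K, hK, N, fun p hp q hD => h p hp q ⟨hD.2.1, hD.2.2⟩⟩) h2
  exact ⟨K, hK, N, fun p hp q hq => h p hp q trivial hq⟩

/-- pairs: `ff` first, at the larger amplitude -/
theorem pair_fg (hα : 1 < α) (hs : α + α' = P) (hm : α * α' = -1) {m n : ℕ} (hm1 : 1 ≤ m)
    (hn1 : 1 ≤ n) {ρ : ℝ} (hρ0 : 0 < ρ) (hρ : ρ⁻¹ = m / n * (α - α')) (hρ2 : ρ ≤ α ^ 2) {u v : ℝ}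
    (huv : u < v) :
    ∃ K : ℝ, 0 < K ∧ ∃ N : ℕ, ∀ p ≥ N, ∀ q : ℕ, p + 2 ≤ q →
      ∫ t in Set.Ioc u v, ff p (p * Real.log α + t) * g q (q * Real.log α + (t + Real.log ρ⁻¹)) ≤
        K * ((Real.log p / p) * (Real.log q / q)) := by
  have hα0 : 0 < α := by linarith
  have hδ0 : 0 < α - α' := by
    have := (abs_lt.1 (Pool.Agent.H19P.conj_abs hα hm)).2
    linarith
  have hK0 : (1 : ℝ) ≤ n * (n + m * (α - α')) := by
    have h1 : (1 : ℝ) ≤ n := by exact_mod_cast hn1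
    have h2 : 0 ≤ (m : ℝ) * (α - α') := by positivity
    nlinarith
  have h1 := windows
    (F := fun p q t => ff p (ysh α (fun _ => 0) p t) * ff q (ysh α (fun _ => 1) q (t + Real.log ρ⁻¹)))
    (fun p q t => mul_nonneg (ff_nonneg _ _) (ff_nonneg _ _)) (fun p q u v => by
      refine Measure.integrableOn_of_bounded (M := 1) (by simp)
        (((measurable_ff p).comp (Pool.Agent.W66X.measurable_ysh _ _ _)).mul
          ((measurable_ff q).comp ((Pool.Agent.W66X.measurable_ysh _ _ _).comp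
            (measurable_id.add_const _)))).aestronglyMeasurable ?_
      refine Eventually.of_forall fun t => ?_
      rw [Real.norm_of_nonneg (mul_nonneg (ff_nonneg _ _) (ff_nonneg _ _))]
      exact mul_le_one₀ (ff_le_one _ _) (ff_nonneg _ _) (ff_le_one _ _))
    (D := fun p q => p + 2 ≤ q ∧ q ≤ 2 * p) (M := fun p _ => (Real.log p / p) ^ 2)
    (fun p q => sq_nonneg _) (fun b0 => by
      obtain ⟨K, hK, N, h⟩ := Pool.Agent.V60.Gap.jnear (κ := 1) (C := 1) (ρ := ρ⁻¹) hα zero_le_one hα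
        (g := fun _ => 0) (g2 := fun _ => 1) (fun p => by simp) (fun p => by simp) hK0
        (inv_pos.2 hρ0) (fun h a b ha hb => by
          rw [hρ]; exact Pool.Agent.V60.Gap.dio_ratio hα hs hm hm1 hn1 h a b ha hb) b0
      refine ⟨K, hK, N, fun p hp q hD => h p hp q (by omega) hD.2 ?_⟩
      have h8 : α ^ 2 ≤ α ^ (q - p) := pow_le_pow_right₀ hα.le (by omega)
      rw [inv_mul_eq_div, le_div_iff₀ hρ0]
      linarith) u v
  have h2 := far_pair fam_ff fam_g (Real.log_pos hα) 0 (Real.log ρ⁻¹) huv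
  simp only [add_zero] at h2
  simp only [ff_one hα0, ff_zero hα0] at h1
  obtain ⟨K, hK, N, h⟩ := combine (D := fun p q => p + 2 ≤ q)
    (F := fun p q t => ff p (p * Real.log α + t) * g q (q * Real.log α + (t + Real.log ρ⁻¹)))
    (by
      obtain ⟨K, hK, N, h⟩ := h1
      exact ⟨K, hK, N, fun p hp q hD => h p hp q ⟨hD.1, hD.2.2⟩⟩) h2
  exact ⟨K, hK, N, fun p hp q hq => h p hp q hq (by omega)⟩

end unit

end Pool.Agent.V1193.GR
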