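import Pool.Agent.V1193.GR.B
import Pool.Agent.V1193.LE.B

set_option autoImplicit false

/-! The laws of the last index for a fixed base. -/

namespace Pool.Agent.V1193.GR

open Finset Filter Topology MeasureTheory
open Pool.Agent.H305R2 (NN roughPart ff measurable_ff ff_nonneg ff_le_one)
open Pool.Agent.V1193.FM (g g_nonneg g_le_one measurable_g ff_asymp g_asymp)
open Pool.Agent.V1193.LE (T T_nonneg summable_T T_pos T_tendsto average T_anti Last last_eq last_meas
  last_law mean_eq tail_eq fin two_le wt wt_nonneg)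
open Pool.Agent.V1193.BP (shift_int ff01 g01)

lemma wt_mem {S : Set ℕ} {p : ℕ} (hp : p ∈ S) : wt S p = Real.log p / p := Set.indicator_of_mem hp _

lemma wt_not {S : Set ℕ} {p : ℕ} (hp : p ∉ S) : wt S p = 0 := Set.indicator_of_notMem hp _

lemma wt_pos {S : Set ℕ} {p : ℕ} (hp : p ∈ S) (h2 : 2 ≤ p) : 0 < wt S p := by
  have h2' : (2 : ℝ) ≤ p := by exact_mod_cast h2
  rw [wt_mem hp]
  exact div_pos (Real.log_pos (by linarith)) (by linarith)

/-- the laws, abstract form -/
theorem afinal {Ω : Type*} [MeasurableSpace Ω] {μ : Measure Ω} [IsFiniteMeasure μ]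
    {E : ℕ → Set Ω} {S : Set ℕ} {L K : ℝ} {N : ℕ} (hE : ∀ p, MeasurableSet (E p))
    (hinf : S.Infinite) (hs : Summable (wt S))
    (hq : ∀ ε > 0, ∀ᶠ p : ℕ in atTop, |μ.real (E p) - L * wt S p| ≤ ε * wt S p) (hK : 0 ≤ K)
    (hpair : ∀ p ≥ N, ∀ q > p, μ.real (E p ∩ E q) ≤ K * wt S p * wt S q) :
    Tendsto (fun p => μ.real (E p) / wt S p) (atTop ⊓ 𝓟 S) (𝓝 L) ∧
    Tendsto (fun p => μ.real (Last E p) / wt S p) (atTop ⊓ 𝓟 S) (𝓝 L) ∧
    Tendsto (fun n => μ.real {z | ∃ p, n ≤ p ∧ z ∈ E p} / T (wt S) n) atTop (𝓝 L) ∧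
    Tendsto (fun n => (∫ z, (({p | n ≤ p ∧ z ∈ E p}).ncard : ℝ) ∂μ) / T (wt S) n) atTop (𝓝 L) ∧
    ∃ K : ℝ, ∀ᶠ n : ℕ in atTop,
      μ.real {z | ∃ p q, n ≤ p ∧ p < q ∧ z ∈ E p ∧ z ∈ E q} ≤ K * T (wt S) n ^ 2 := by
  have hw := wt_nonneg S
  have hinf' : ∀ n, ∃ p ≥ n, 0 < wt S p := by
    intro n
    obtain ⟨p, hp, h⟩ := hinf.exists_gt (max n 2)
    exact ⟨p, ((le_max_left _ _).trans h.le), wt_pos hp ((le_max_right _ _).trans h.le)⟩
  have hsum : Summable fun p => μ.real (E p) := by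
    refine Summable.of_norm_bounded_eventually_nat (g := fun p => (1 + |L|) * wt S p)
      (hs.mul_left _) ?_
    filter_upwards [hq 1 one_pos] with p hp
    rw [Real.norm_of_nonneg measureReal_nonneg]
    have h1 := (abs_le.1 hp).2
    have h2 := wt_nonneg S p
    have h3 : L * wt S p ≤ |L| * wt S p := mul_le_mul_of_nonneg_right (le_abs_self L) h2
    nlinarith
  have hlast := last_law hE hw hs hK hq hpair
  have hsub : ∀ m, Last E m ⊆ E m := fun m y hy => hy.1
  have hsum' : Summable fun m => μ.real (Last E m) :=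
    Summable.of_nonneg_of_le (fun m => measureReal_nonneg) (fun m => measureReal_mono (hsub m)) hsum
  have hratio : ∀ {a : ℕ → ℝ}, (∀ ε > 0, ∀ᶠ p : ℕ in atTop, |a p - L * wt S p| ≤ ε * wt S p) →
      Tendsto (fun p => a p / wt S p) (atTop ⊓ 𝓟 S) (𝓝 L) := by
    intro a h
    rw [Metric.tendsto_nhds]
    intro ε hε
    rw [eventually_inf_principal]
    filter_upwards [h (ε / 2) (by positivity), eventually_ge_atTop 2] with p h1 h2 hp
    have h3 := wt_pos hp h2
    rw [Real.dist_eq]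
    have e : a p / wt S p - L = (a p - L * wt S p) / wt S p := by
      field_simp
    rw [e, abs_div, abs_of_pos h3, div_lt_iff₀ h3]
    nlinarith
  refine ⟨hratio hq, hratio hlast, ?_, ?_, K, ?_⟩
  · refine (average hw hs hsum' hinf' hlast).congr fun n => ?_
    rw [tail_eq hE hsum]
  · refine (average hw hs hsum hinf' hq).congr fun n => ?_
    rw [mean_eq hE hsum]
  · filter_upwards [eventually_ge_atTop N] with n hn
    exact two_le hw hs hK hpair hn

/-- events of the first kind -/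
def AE (S : Set ℕ) (x : ℝ) (p : ℕ) : Set ℝ := {t | p ∈ S ∧ ff p (p * x + t) = 1}

/-- events of the second kind -/
def BE (S : Set ℕ) (x r : ℝ) (p : ℕ) : Set ℝ := {t | p ∈ S ∧ g p (p * x + (t - r)) = 1}

lemma empty_of {S : Set ℕ} {p : ℕ} {Q : ℝ → Prop} (hp : p ∉ S) : {t : ℝ | p ∈ S ∧ Q t} = ∅ := by
  ext z
  simp only [Set.mem_empty_iff_false, iff_false]
  exact fun h => hp h.1

lemma full_of {S : Set ℕ} {p : ℕ} {Q : ℝ → Prop} (hp : p ∈ S) : {t : ℝ | p ∈ S ∧ Q t} = {t | Q t} := by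
  ext z
  exact ⟨fun h => h.2, fun h => ⟨hp, h⟩⟩

lemma meas_AE (S : Set ℕ) (x : ℝ) (p : ℕ) : MeasurableSet (AE S x p) := by
  unfold AE
  by_cases hp : p ∈ S
  · rw [full_of hp]
    exact ((measurable_ff p).comp (by fun_prop : Measurable fun t : ℝ => (p : ℝ) * x + t))
      (measurableSet_singleton 1)
  · rw [empty_of hp]; exact MeasurableSet.empty

lemma meas_BE (S : Set ℕ) (x r : ℝ) (p : ℕ) : MeasurableSet (BE S x r p) := by
  unfold BE
  by_cases hp : p ∈ S
  · rw [full_of hp]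
    exact ((measurable_g p).comp (by fun_prop : Measurable fun t : ℝ => (p : ℝ) * x + (t - r)))
      (measurableSet_singleton 1)
  · rw [empty_of hp]; exact MeasurableSet.empty

/-- the measure of a set given by a function with the values `0`, `1` -/
lemma real01 {a : ℝ → ℝ} (ha : Measurable a) (h01 : ∀ t, a t = 0 ∨ a t = 1) (u v : ℝ) :
    (volume.restrict (Set.Ioc u v)).real {t | a t = 1} = ∫ t in Set.Ioc u v, a t := by
  have e : a = ({t | a t = 1}).indicator (fun _ => (1 : ℝ)) := by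
    funext t
    by_cases h : a t = 1
    · rw [Set.indicator_of_mem (show t ∈ {t | a t = 1} from h), h]
    · rw [Set.indicator_of_notMem (show t ∉ {t | a t = 1} from h)]
      exact (h01 t).resolve_right h
  have hms : MeasurableSet {t | a t = 1} := ha (measurableSet_singleton 1)
  conv_rhs => rw [e]
  rw [integral_indicator_const _ hms, smul_eq_mul, mul_one]

lemma real01_le {a b : ℝ → ℝ} (ha : Measurable a) (hb : Measurable b)
    (ha01 : ∀ t, a t = 0 ∨ a t = 1) (hb01 : ∀ t, b t = 0 ∨ b t = 1) (u v : ℝ) {A B : Set ℝ}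
    (hA : A ⊆ {t | a t = 1}) (hB : B ⊆ {t | b t = 1}) :
    (volume.restrict (Set.Ioc u v)).real (A ∩ B) ≤ ∫ t in Set.Ioc u v, a t * b t := by
  rw [← real01 (a := fun t => a t * b t) (ha.mul hb)
    (fun t => Pool.Agent.V1193.BP.mul01 (ha01 t) (hb01 t))]
  refine measureReal_mono ?_
  rintro t ⟨h1, h2⟩
  show a t * b t = 1
  rw [show a t = 1 from hA h1, show b t = 1 from hB h2, one_mul]

section laws

variable {x u v : ℝ}

lemma mass_A (hx : 0 < x) (huv : u < v) (S : Set ℕ) : ∀ ε > 0, ∀ᶠ p : ℕ in atTop,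
    |(volume.restrict (Set.Ioc u v)).real (AE S x p) -
      (Real.exp Real.eulerMascheroniConstant * (v - u) / x) * wt S p| ≤ ε * wt S p := by
  intro ε hε
  have h := (ff_asymp hx (sub_pos.2 huv) (Pool.Agent.V1193.BP.slope (x := x) u))
  filter_upwards [(Metric.tendsto_nhds.1 h) ε hε, eventually_ge_atTop 3] with p hp hp3
  by_cases hS : p ∈ S
  · have hp3' : (3 : ℝ) ≤ p := by exact_mod_cast hp3
    have hp0 : (0 : ℝ) < p := by linarith
    have hl : 0 < Real.log p := Real.log_pos (by linarith)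
    have hw0 : 0 < Real.log p / p := by positivity
    have e1 : (volume.restrict (Set.Ioc u v)).real (AE S x p) =
        ∫ t in Set.Ioc (p * x + u) (p * x + u + (v - u)), ff p t := by
      unfold AE
      rw [full_of hS, real01 (a := fun t => ff p (p * x + t)) ((measurable_ff p).comp
        (by fun_prop : Measurable fun t : ℝ => (p : ℝ) * x + t)) (fun t => ff01 _ _)]
      rw [shift_int (ff p) huv.le, show (p : ℝ) * x + u + (v - u) = p * x + v by ring]
    rw [e1, wt_mem hS]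
    rw [Real.dist_eq] at hp
    set J := ∫ t in Set.Ioc (p * x + u) (p * x + u + (v - u)), ff p t
    set L := Real.exp Real.eulerMascheroniConstant * (v - u) / x
    have e2 : J - L * (Real.log p / p) = (J * (p / Real.log p) - L) * (Real.log p / p) := by
      field_simp
    rw [e2, abs_mul, abs_of_pos hw0]
    exact mul_le_mul_of_nonneg_right hp.le hw0.le
  · unfold AE
    rw [empty_of hS, wt_not hS]
    simp

lemma mass_B (hx : 0 < x) (huv : u < v) (r : ℝ) (S : Set ℕ) : ∀ ε > 0, ∀ᶠ p : ℕ in atTop,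
    |(volume.restrict (Set.Ioc u v)).real (BE S x r p) -
      (Real.exp Real.eulerMascheroniConstant * (v - u) / x) * wt S p| ≤ ε * wt S p := by
  intro ε hε
  have h := (g_asymp hx (sub_pos.2 huv) (Pool.Agent.V1193.BP.slope (x := x) (u - r)))
  filter_upwards [(Metric.tendsto_nhds.1 h) ε hε, eventually_ge_atTop 3] with p hp hp3
  by_cases hS : p ∈ S
  · have hp3' : (3 : ℝ) ≤ p := by exact_mod_cast hp3
    have hp0 : (0 : ℝ) < p := by linarith
    have hl : 0 < Real.log p := Real.log_pos (by linarith)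
    have hw0 : 0 < Real.log p / p := by positivity
    have e1 : (volume.restrict (Set.Ioc u v)).real (BE S x r p) =
        ∫ t in Set.Ioc (p * x + (u - r)) (p * x + (u - r) + (v - u)), g p t := by
      unfold BE
      rw [full_of hS, real01 (a := fun t => g p (p * x + (t - r))) ((measurable_g p).comp
        (by fun_prop : Measurable fun t : ℝ => (p : ℝ) * x + (t - r))) (fun t => g01 _ _)]
      have e3 : ∫ t in Set.Ioc u v, g p (p * x + (t - r)) =
          ∫ t in Set.Ioc u v, g p ((p * x - r) + t) := by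
        refine integral_congr_ae (Eventually.of_forall fun t => ?_)
        simp only
        congr 1
        ring
      rw [e3, shift_int (g p) huv.le, show (p : ℝ) * x - r + u = p * x + (u - r) by ring,
        show (p : ℝ) * x - r + v = p * x + (u - r) + (v - u) by ring]
    rw [e1, wt_mem hS]
    rw [Real.dist_eq] at hp
    set J := ∫ t in Set.Ioc (p * x + (u - r)) (p * x + (u - r) + (v - u)), g p t
    set L := Real.exp Real.eulerMascheroniConstant * (v - u) / x
    have e2 : J - L * (Real.log p / p) = (J * (p / Real.log p) - L) * (Real.log p / p) := by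
      field_simp
    rw [e2, abs_mul, abs_of_pos hw0]
    exact mul_le_mul_of_nonneg_right hp.le hw0.le
  · unfold BE
    rw [empty_of hS, wt_not hS]
    simp

end laws

/-- the translation of a window -/
lemma shift_win (f : ℝ → ℝ) {u v : ℝ} (huv : u ≤ v) (r : ℝ) :
    ∫ t in Set.Ioc u v, f t = ∫ s in Set.Ioc (u - r) (v - r), f (s + r) := by
  have h := shift_int (fun s => f s) (y0 := u - r) (y1 := v - r) (by linarith) r
  rw [show r + (u - r) = u by ring, show r + (v - r) = v by ring] at h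
  rw [← h]
  refine integral_congr_ae (Eventually.of_forall fun t => ?_)
  simp only
  rw [add_comm]

section unit

variable {α α' : ℝ} {P : ℤ} {u v : ℝ}

/-- pairs with weights -/
lemma to_wt {X : ℕ → ℕ → ℝ} {E F : ℕ → Set ℝ} {S : Set ℕ} {D : ℕ → ℕ → Prop}
    (hE : ∀ p, p ∉ S → E p = ∅) (hF : ∀ p, p ∉ S → F p = ∅)
    (hX : ∀ p q, p ∈ S → q ∈ S → (volume.restrict (Set.Ioc u v)).real (E p ∩ F q) ≤ X p q)
    (h : ∃ K : ℝ, 0 < K ∧ ∃ N : ℕ, ∀ p ≥ N, ∀ q : ℕ, D p q →
      X p q ≤ K * ((Real.log p / p) * (Real.log q / q))) :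
    ∃ K : ℝ, 0 ≤ K ∧ ∃ N : ℕ, ∀ p ≥ N, ∀ q : ℕ, D p q →
      (volume.restrict (Set.Ioc u v)).real (E p ∩ F q) ≤ K * wt S p * wt S q := by
  obtain ⟨K, hK, N, h⟩ := h
  refine ⟨K, hK.le, N, fun p hp q hq => ?_⟩
  by_cases h1 : p ∈ S
  · by_cases h2 : q ∈ S
    · rw [wt_mem h1, wt_mem h2, mul_assoc]
      exact (hX p q h1 h2).trans (h p hp q hq)
    · rw [hF q h2, wt_not h2]
      simp
  · rw [hE p h1, wt_not h1]
    simp

lemma AE_empty {S : Set ℕ} {x : ℝ} (p : ℕ) (hp : p ∉ S) : AE S x p = ∅ := empty_of hp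

lemma BE_empty {S : Set ℕ} {x r : ℝ} (p : ℕ) (hp : p ∉ S) : BE S x r p = ∅ := empty_of hp

lemma AE_sub (S : Set ℕ) (x : ℝ) (p : ℕ) : AE S x p ⊆ {t | ff p (p * x + t) = 1} := fun _ h => h.2

lemma BE_sub (S : Set ℕ) (x r : ℝ) (p : ℕ) : BE S x r p ⊆ {t | g p (p * x + (t - r)) = 1} :=
  fun _ h => h.2

theorem pairs_A (hα : 1 < α) (hs : α + α' = P) (hm : α * α' = -1) (huv : u < v) (S : Set ℕ) :
    ∃ K : ℝ, 0 ≤ K ∧ ∃ N : ℕ, ∀ p ≥ N, ∀ q : ℕ, p < q →
      (volume.restrict (Set.Ioc u v)).real (AE S (Real.log α) p ∩ AE S (Real.log α) q) ≤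
        K * wt S p * wt S q :=
  to_wt (D := fun p q => p < q) AE_empty AE_empty
    (fun p q _ _ => real01_le (a := fun t => ff p (p * Real.log α + t))
      (b := fun t => ff q (q * Real.log α + t)) ((measurable_ff p).comp (by fun_prop))
      ((measurable_ff q).comp (by fun_prop)) (fun _ => ff01 _ _) (fun _ => ff01 _ _) u v
      (AE_sub _ _ _) (AE_sub _ _ _)) (pair_ff hα hs hm huv)

theorem pairs_B (hα : 1 < α) (hs : α + α' = P) (hm : α * α' = -1) (huv : u < v) (r : ℝ)
    (S : Set ℕ) :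
    ∃ K : ℝ, 0 ≤ K ∧ ∃ N : ℕ, ∀ p ≥ N, ∀ q : ℕ, p < q →
      (volume.restrict (Set.Ioc u v)).real (BE S (Real.log α) r p ∩ BE S (Real.log α) r q) ≤
        K * wt S p * wt S q := by
  refine to_wt (D := fun p q => p < q) BE_empty BE_empty
    (fun p q _ _ => real01_le (a := fun t => g p (p * Real.log α + (t - r)))
      (b := fun t => g q (q * Real.log α + (t - r))) ((measurable_g p).comp (by fun_prop))
      ((measurable_g q).comp (by fun_prop)) (fun _ => g01 _ _) (fun _ => g01 _ _) u v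
      (BE_sub _ _ _ _) (BE_sub _ _ _ _)) ?_
  obtain ⟨K, hK, N, h⟩ := pair_g hα hs hm (show u - r < v - r by linarith)
  refine ⟨K, hK, N, fun p hp q hq => ?_⟩
  rw [shift_win _ huv.le r]
  simp only [add_sub_cancel_right]
  exact h p hp q hq

theorem pairs_BA (hα : 1 < α) (hs : α + α' = P) (hm : α * α' = -1) {m n : ℕ} (hm1 : 1 ≤ m)
    (hn1 : 1 ≤ n) {ρ : ℝ} (hρ : ρ = m / n * (α - α')) (hρ1 : 1 ≤ ρ) (huv : u < v) (S : Set ℕ) :
    ∃ K : ℝ, 0 ≤ K ∧ ∃ N : ℕ, ∀ p ≥ N, ∀ q : ℕ, p ≤ q →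
      (volume.restrict (Set.Ioc u v)).real
        (BE S (Real.log α) (Real.log ρ) p ∩ AE S (Real.log α) q) ≤ K * wt S p * wt S q := by
  refine to_wt (D := fun p q => p ≤ q) BE_empty AE_empty
    (fun p q _ _ => real01_le (a := fun t => g p (p * Real.log α + (t - Real.log ρ)))
      (b := fun t => ff q (q * Real.log α + t)) ((measurable_g p).comp (by fun_prop))
      ((measurable_ff q).comp (by fun_prop)) (fun _ => g01 _ _) (fun _ => ff01 _ _) u v
      (BE_sub _ _ _ _) (AE_sub _ _ _)) ?_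
  obtain ⟨K, hK, N, h⟩ := pair_gf hα hs hm hm1 hn1 hρ hρ1
    (show u - Real.log ρ < v - Real.log ρ by linarith)
  refine ⟨K, hK, N, fun p hp q hq => ?_⟩
  rw [shift_win _ huv.le (Real.log ρ)]
  simp only [add_sub_cancel_right]
  exact h p hp q hq

theorem pairs_AB (hα : 1 < α) (hs : α + α' = P) (hm : α * α' = -1) {m n : ℕ} (hm1 : 1 ≤ m)
    (hn1 : 1 ≤ n) {ρ : ℝ} (hρ0 : 0 < ρ) (hρ : ρ⁻¹ = m / n * (α - α')) (hρ2 : ρ ≤ α ^ 2)
    (huv : u < v) (S : Set ℕ) :
    ∃ K : ℝ, 0 ≤ K ∧ ∃ N : ℕ, ∀ p ≥ N, ∀ q : ℕ, p + 2 ≤ q →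
      (volume.restrict (Set.Ioc u v)).real
        (AE S (Real.log α) p ∩ BE S (Real.log α) (Real.log ρ) q) ≤ K * wt S p * wt S q := by
  refine to_wt (D := fun p q => p + 2 ≤ q) AE_empty BE_empty
    (fun p q _ _ => real01_le (a := fun t => ff p (p * Real.log α + t))
      (b := fun t => g q (q * Real.log α + (t - Real.log ρ))) ((measurable_ff p).comp (by fun_prop))
      ((measurable_g q).comp (by fun_prop)) (fun _ => ff01 _ _) (fun _ => g01 _ _) u v
      (AE_sub _ _ _) (BE_sub _ _ _ _)) ?_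
  obtain ⟨K, hK, N, h⟩ := pair_fg hα hs hm hm1 hn1 hρ0 hρ hρ2 huv
  refine ⟨K, hK, N, fun p hp q hq => le_trans (le_of_eq ?_) (h p hp q hq)⟩
  refine integral_congr_ae (Eventually.of_forall fun t => ?_)
  simp only
  rw [Real.log_inv, ← sub_eq_add_neg]

end unit

end Pool.Agent.V1193.GR
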