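import Pool.Agent.V1193.GR.C
import Pool.Agent.V1193.BP.F

set_option autoImplicit false

/-! Both kinds of events together, and the sets of exponents. -/

namespace Pool.Agent.V1193.GR

open Finset Filter Topology MeasureTheory
open Pool.Agent.H305R2 (NN roughPart ff measurable_ff ff_nonneg ff_le_one)
open Pool.Agent.V1193.FM (g g_nonneg g_le_one measurable_g ff_asymp g_asymp)
open Pool.Agent.V1193.LE (T T_nonneg summable_T T_pos T_tendsto average T_anti Last last_eq last_meas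
  last_law mean_eq tail_eq fin two_le wt wt_nonneg)
open Pool.Agent.V1193.BP (shift_int slope VV UU exp_arg ff_iff g_iff ff01 g01)

/-- events of either kind -/
def UE (S : Set ℕ) (x r : ℝ) (p : ℕ) : Set ℝ := AE S x p ∪ BE S x r p

lemma meas_UE (S : Set ℕ) (x r : ℝ) (p : ℕ) : MeasurableSet (UE S x r p) :=
  (meas_AE S x p).union (meas_BE S x r p)

lemma wt_lim (S : Set ℕ) : Tendsto (wt S) atTop (𝓝 0) := by
  have h : Tendsto (fun p : ℕ => Real.log p / p) atTop (𝓝 0) := by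
    have h1 := Real.isLittleO_log_id_atTop.tendsto_div_nhds_zero
    exact h1.comp (tendsto_natCast_atTop_atTop (R := ℝ))
  refine squeeze_zero (wt_nonneg S) (fun p => ?_) h
  exact Set.indicator_le_self' (fun _ _ => div_nonneg (Real.log_natCast_nonneg _)
    (Nat.cast_nonneg _)) p

section unit

variable {α α' ρ : ℝ} {P : ℤ} {u v : ℝ} {m n m' n' : ℕ}

theorem mass_U (hα : 1 < α) (hs : α + α' = P) (hm : α * α' = -1) (hm1 : 1 ≤ m)
    (hn1 : 1 ≤ n) (hρ : ρ = m / n * (α - α')) (hρ1 : 1 ≤ ρ) (huv : u < v) (S : Set ℕ) :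
    ∀ ε > 0, ∀ᶠ p : ℕ in atTop,
    |(volume.restrict (Set.Ioc u v)).real (UE S (Real.log α) (Real.log ρ) p) -
      (2 * (Real.exp Real.eulerMascheroniConstant * (v - u) / Real.log α)) * wt S p| ≤
        ε * wt S p := by
  intro ε hε
  obtain ⟨K, hK, N, hp2⟩ := pairs_BA hα hs hm hm1 hn1 hρ hρ1 huv S
  have hx := Real.log_pos hα
  have h3 : ∀ᶠ p : ℕ in atTop, K * wt S p < ε / 4 := by
    have h := (wt_lim S).const_mul K
    rw [mul_zero] at h
    exact h.eventually_lt_const (by positivity)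
  filter_upwards [mass_A hx huv S (ε / 4) (by positivity),
    mass_B hx huv (Real.log ρ) S (ε / 4) (by positivity), h3, eventually_ge_atTop N]
    with p h1 h2 h3 h4
  have h5 := hp2 p h4 p le_rfl
  rw [Set.inter_comm] at h5
  have h6 := measureReal_union_add_inter (μ := volume.restrict (Set.Ioc u v))
    (s := AE S (Real.log α) p) (meas_BE S (Real.log α) (Real.log ρ) p)
  have h7 : 0 ≤ (volume.restrict (Set.Ioc u v)).real
    (AE S (Real.log α) p ∩ BE S (Real.log α) (Real.log ρ) p) := measureReal_nonneg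
  have h8 := wt_nonneg S p
  have h9 : K * wt S p * wt S p ≤ ε / 4 * wt S p := mul_le_mul_of_nonneg_right h3.le h8
  unfold UE
  rw [abs_le] at h1 h2 ⊢
  constructor
  · nlinarith [h1.1, h2.1]
  · nlinarith [h1.2, h2.2]

theorem pairs_U (hα : 1 < α) (hs : α + α' = P) (hm : α * α' = -1) (hm1 : 1 ≤ m)
    (hn1 : 1 ≤ n) (hρ : ρ = m / n * (α - α')) (hρ1 : 1 ≤ ρ) (hm1' : 1 ≤ m') (hn1' : 1 ≤ n')
    (hρ' : ρ⁻¹ = m' / n' * (α - α')) (hρ2 : ρ ≤ α ^ 2) (huv : u < v) {S : Set ℕ}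
    (hodd : ∀ p ∈ S, Odd p) :
    ∃ K : ℝ, 0 ≤ K ∧ ∃ N : ℕ, ∀ p ≥ N, ∀ q : ℕ, p < q →
      (volume.restrict (Set.Ioc u v)).real
        (UE S (Real.log α) (Real.log ρ) p ∩ UE S (Real.log α) (Real.log ρ) q) ≤
          K * wt S p * wt S q := by
  obtain ⟨K1, hK1, N1, h1⟩ := pairs_A hα hs hm huv S
  obtain ⟨K2, hK2, N2, h2⟩ := pairs_B hα hs hm huv (Real.log ρ) S
  obtain ⟨K3, hK3, N3, h3⟩ := pairs_BA hα hs hm hm1 hn1 hρ hρ1 huv S
  obtain ⟨K4, hK4, N4, h4⟩ := pairs_AB hα hs hm hm1' hn1' (by linarith) hρ' hρ2 huv S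
  refine ⟨K1 + K2 + K3 + K4, by positivity, N1 + N2 + N3 + N4, fun p hp q hq => ?_⟩
  by_cases hS : p ∈ S ∧ q ∈ S
  · have hq2 : p + 2 ≤ q := by
      obtain ⟨a, ha⟩ := hodd p hS.1
      obtain ⟨b, hb⟩ := hodd q hS.2
      omega
    set μ := volume.restrict (Set.Ioc u v) with hμ
    set x := Real.log α with hx
    set r := Real.log ρ with hr
    have c1 := h1 p (by omega) q hq
    have c2 := h2 p (by omega) q hq
    have c3 := h3 p (by omega) q hq.le
    have c4 := h4 p (by omega) q hq2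
    have hsub : UE S x r p ∩ UE S x r q ⊆ ((AE S x p ∩ AE S x q) ∪ (BE S x r p ∩ BE S x r q)) ∪
        ((BE S x r p ∩ AE S x q) ∪ (AE S x p ∩ BE S x r q)) := by
      rintro t ⟨h5 | h5, h6 | h6⟩
      · exact Or.inl (Or.inl ⟨h5, h6⟩)
      · exact Or.inr (Or.inr ⟨h5, h6⟩)
      · exact Or.inr (Or.inl ⟨h5, h6⟩)
      · exact Or.inl (Or.inr ⟨h5, h6⟩)
    have d1 := (measureReal_mono (μ := μ) hsub).trans ((measureReal_union_le _ _).trans
      (add_le_add (measureReal_union_le _ _) (measureReal_union_le _ _)))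
    calc _ ≤ _ := d1
      _ ≤ (K1 * wt S p * wt S q + K2 * wt S p * wt S q) +
          (K3 * wt S p * wt S q + K4 * wt S p * wt S q) :=
          add_le_add (add_le_add c1 c2) (add_le_add c3 c4)
      _ = _ := by ring
  · have e : UE S (Real.log α) (Real.log ρ) p ∩ UE S (Real.log α) (Real.log ρ) q = ∅ := by
      ext z
      simp only [Set.mem_empty_iff_false, iff_false]
      rintro ⟨h5, h6⟩
      refine hS ⟨?_, ?_⟩
      · rcases h5 with h5 | h5 <;> exact h5.1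
      · rcases h6 with h6 | h6 <;> exact h6.1
    rw [e]
    simp only [measureReal_empty]
    exact mul_nonneg (mul_nonneg (by positivity) (wt_nonneg _ _)) (wt_nonneg _ _)

end unit

/-! ### Sets of exponents -/

/-- The laws for the exponents `E y ⊆ S`, `y` in the window, with the constant `L`. -/
def Law (S : Set ℕ) (E : ℝ → Set ℕ) (u v L : ℝ) : Prop :=
  Tendsto (fun n : ℕ => volume.real {y ∈ Set.Ioc u v | n ∈ E y} / (Real.log n / n))
    (atTop ⊓ 𝓟 S) (𝓝 L) ∧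
  Tendsto (fun n : ℕ => volume.real {y ∈ Set.Ioc u v | IsGreatest (E y) n} / (Real.log n / n))
    (atTop ⊓ 𝓟 S) (𝓝 L) ∧
  Tendsto (fun n : ℕ => volume.real {y ∈ Set.Ioc u v | ∃ m ∈ E y, n ≤ m} / T (wt S) n)
    atTop (𝓝 L) ∧
  Tendsto (fun n : ℕ => (∫ y in Set.Ioc u v, ((E y ∩ Set.Ici n).ncard : ℝ)) / T (wt S) n)
    atTop (𝓝 L) ∧
  ∃ K : ℝ, ∀ᶠ n : ℕ in atTop,
    volume.real {y ∈ Set.Ioc u v | ∃ p ∈ E y, ∃ q ∈ E y, n ≤ p ∧ p < q} ≤ K * T (wt S) n ^ 2

lemma real_win (u v : ℝ) (A : Set ℝ) :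
    (volume.restrict (Set.Ioc u v)).real A = volume.real {z | z ∈ Set.Ioc u v ∧ z ∈ A} := by
  rw [measureReal_restrict_apply' measurableSet_Ioc]
  congr 1
  ext z
  exact and_comm

theorem law_of {S : Set ℕ} {F : ℕ → Set ℝ} {E : ℝ → Set ℕ} {u v L K : ℝ} {N : ℕ}
    (hmem : ∀ y n, y ∈ F n ↔ n ∈ E y) (hE : ∀ p, MeasurableSet (F p))
    (hinf : S.Infinite) (hs : Summable (wt S))
    (hq : ∀ ε > 0, ∀ᶠ p : ℕ in atTop,
      |(volume.restrict (Set.Ioc u v)).real (F p) - L * wt S p| ≤ ε * wt S p) (hK : 0 ≤ K)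
    (hpair : ∀ p ≥ N, ∀ q > p, (volume.restrict (Set.Ioc u v)).real (F p ∩ F q) ≤
      K * wt S p * wt S q) : Law S E u v L := by
  obtain ⟨h1, h2, h3, h4, K, h5⟩ := afinal hE hinf hs hq hK hpair
  refine ⟨?_, ?_, ?_, ?_, K, ?_⟩
  · refine h1.congr' ?_
    rw [EventuallyEq, eventually_inf_principal]
    refine Eventually.of_forall fun n hn => ?_
    rw [wt_mem hn, real_win]
    congr 2
    ext z
    exact and_congr_right fun _ => hmem z n
  · refine h2.congr' ?_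
    rw [EventuallyEq, eventually_inf_principal]
    refine Eventually.of_forall fun n hn => ?_
    rw [wt_mem hn, real_win]
    congr 2
    ext z
    refine and_congr_right fun _ => ?_
    have : {k | z ∈ F k} = E z := by ext k; exact hmem z k
    show IsGreatest {k | z ∈ F k} n ↔ _
    rw [this]
  · refine h3.congr fun n => ?_
    rw [real_win]
    congr 2
    ext z
    refine and_congr_right fun _ => ?_
    constructor
    · rintro ⟨m, h6, h7⟩
      exact ⟨m, (hmem z m).1 h7, h6⟩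
    · rintro ⟨m, h7, h6⟩
      exact ⟨m, h6, (hmem z m).2 h7⟩
  · refine h4.congr fun n => ?_
    congr 1
    refine integral_congr_ae (Eventually.of_forall fun z => ?_)
    simp only
    congr 2
    ext m
    constructor
    · rintro ⟨h6, h7⟩
      exact ⟨(hmem z m).1 h7, h6⟩
    · rintro ⟨h7, h6⟩
      exact ⟨h6, (hmem z m).2 h7⟩
  · filter_upwards [h5] with n hn
    rw [real_win] at hn
    refine le_trans (le_of_eq ?_) hn
    congr 1
    ext z
    refine and_congr_right fun _ => ?_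
    constructor
    · rintro ⟨p, h6, q, h7, h8, h9⟩
      exact ⟨p, q, h8, h9, (hmem z p).2 h6, (hmem z q).2 h7⟩
    · rintro ⟨p, q, h8, h9, h6, h7⟩
      exact ⟨p, (hmem z p).1 h6, q, (hmem z q).1 h7, h8, h9⟩

/-- the exponents of the first kind -/
def NA (S : Set ℕ) (α β : ℝ) : Set ℕ := {n | n ∈ S ∧ (VV α β n).Prime}

/-- the exponents of the second kind -/
def NU (S : Set ℕ) (α δ : ℝ) : Set ℕ := {n | n ∈ S ∧ (UU α δ n).Prime}

lemma mem_A {α : ℝ} (hα : 0 < α) (S : Set ℕ) (y : ℝ) (n : ℕ) :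
    y ∈ AE S (Real.log α) n ↔ n ∈ NA S α (Real.exp y) := by
  unfold AE NA
  simp only [Set.mem_ofPred_eq, ff_iff, Real.exp_log hα]

lemma mem_B {α ρ : ℝ} (hα : 0 < α) (hρ : 0 < ρ) (S : Set ℕ) (y : ℝ) (n : ℕ) :
    y ∈ BE S (Real.log α) (Real.log ρ) n ↔ n ∈ NU S α (Real.exp y / ρ) := by
  unfold BE NU
  simp only [Set.mem_ofPred_eq, g_iff, Real.exp_log hα, Real.exp_sub, Real.exp_log hρ]

section unit

variable {α α' ρ : ℝ} {P : ℤ} {u v : ℝ} {m n m' n' : ℕ}

theorem law_A (hα : 1 < α) (hs : α + α' = P) (hm : α * α' = -1) (huv : u < v) {S : Set ℕ}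
    (hinf : S.Infinite) (hsum : Summable (wt S)) :
    Law S (fun y => NA S α (Real.exp y)) u v
      (Real.exp Real.eulerMascheroniConstant * (v - u) / Real.log α) := by
  obtain ⟨K, hK, N, h⟩ := pairs_A hα hs hm huv S
  exact law_of (fun y n => mem_A (by linarith) S y n) (meas_AE S _) hinf hsum
    (mass_A (Real.log_pos hα) huv S) hK h

theorem law_B (hα : 1 < α) (hs : α + α' = P) (hm : α * α' = -1) (hρ : 0 < ρ) (huv : u < v)
    {S : Set ℕ} (hinf : S.Infinite) (hsum : Summable (wt S)) :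
    Law S (fun y => NU S α (Real.exp y / ρ)) u v
      (Real.exp Real.eulerMascheroniConstant * (v - u) / Real.log α) := by
  obtain ⟨K, hK, N, h⟩ := pairs_B hα hs hm huv (Real.log ρ) S
  exact law_of (fun y n => mem_B (by linarith) hρ S y n) (meas_BE S _ _) hinf hsum
    (mass_B (Real.log_pos hα) huv (Real.log ρ) S) hK h

theorem law_U (hα : 1 < α) (hs : α + α' = P) (hm : α * α' = -1) (hm1 : 1 ≤ m)
    (hn1 : 1 ≤ n) (hρ : ρ = m / n * (α - α')) (hρ1 : 1 ≤ ρ) (hm1' : 1 ≤ m') (hn1' : 1 ≤ n')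
    (hρ' : ρ⁻¹ = m' / n' * (α - α')) (hρ2 : ρ ≤ α ^ 2) (huv : u < v) {S : Set ℕ}
    (hodd : ∀ p ∈ S, Odd p) (hinf : S.Infinite) (hsum : Summable (wt S)) :
    Law S (fun y => NA S α (Real.exp y) ∪ NU S α (Real.exp y / ρ)) u v
      (2 * (Real.exp Real.eulerMascheroniConstant * (v - u) / Real.log α)) := by
  obtain ⟨K, hK, N, h⟩ := pairs_U hα hs hm hm1 hn1 hρ hρ1 hm1' hn1' hρ' hρ2 huv hodd
  refine law_of (F := UE S (Real.log α) (Real.log ρ)) (fun y n => ?_) (meas_UE S _ _) hinf hsum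
    (mass_U hα hs hm hm1 hn1 hρ hρ1 huv S) hK h
  exact or_congr (mem_A (by linarith) S y n) (mem_B (by linarith) (by linarith) S y n)

end unit

end Pool.Agent.V1193.GR
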